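import Pool.Agent.W312.WT.Stm

/-!
# Project WT, part DCB: second half of the decomposition
-/

set_option autoImplicit false

namespace Pool.Agent.W351.WT

open Pool.Agent.W312.WT

lemma cz_zero (D : ℕ) : ∀ (l : List Jb) (us : List ℕ), (∀ y ∈ l, D < y.2.1) →
    (∀ k < l.length, us.getD k 0 ≤ D) → cz l us = 0
  | [], us, _, _ => cz_nil us
  | _ :: _, [], _, _ => by simp [cz]
  | y :: l, t :: us, h1, h2 => by
    have h3 := cz_zero D l us (fun z hz => h1 z (List.mem_cons_of_mem _ hz)) (fun k hk => by
      have := h2 (k + 1) (by rw [List.length_cons]; omega)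
      rwa [List.getD_cons_succ] at this)
    have h4 := h2 0 (by rw [List.length_cons]; omega)
    rw [List.getD_cons_zero] at h4
    have h5 := h1 y List.mem_cons_self
    have h6 : tc y t = 0 := by
      unfold tc
      rw [Nat.sub_eq_zero_of_le (by omega), mul_zero]
    rw [cz_cons, h3, h6]

lemma getD_le {ts : List ℕ} (h : ts.Pairwise (· ≤ ·)) {i j : ℕ} (hij : i ≤ j)
    (hj : j < ts.length) : ts.getD i 0 ≤ ts.getD j 0 := by
  rw [List.getD_eq_getElem _ _ (by omega), List.getD_eq_getElem _ _ hj]
  rcases hij.lt_or_eq with h1 | h1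
  · exact (List.pairwise_iff_getElem.1 h) i j (by omega) hj h1
  · subst h1; exact le_rfl

theorem proof_SDcb : Pool.Agent.W312.WT.SDcb := by
  intro hSub x A R ts D hlen hts hD hR
  have hperm : (A.filter (fun y => decide (y.2.1 ≤ D)) ++
      A.filter (fun y => !decide (y.2.1 ≤ D))).Perm A := List.filter_append_perm _ A
  set A' := A.filter (fun y => decide (y.2.1 ≤ D)) with hA'
  set A'' := A.filter (fun y => !decide (y.2.1 ≤ D)) with hA''
  have hl : A'.length + A''.length = A.length := by
    rw [← List.length_append]
    exact hperm.length_eq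
  have hm' : ∀ y ∈ A', y.2.1 ≤ D := by
    intro y hy
    have := (List.mem_filter.1 hy).2
    simpa using this
  have hm'' : ∀ y ∈ A'', D < y.2.1 := by
    intro y hy
    have := (List.mem_filter.1 hy).2
    simpa using this
  have hlen' : ts.length = A.length + 1 + R.length := by
    rw [hlen, List.length_append, List.length_cons]
    omega
  refine ⟨A', A'' ++ R, ?_, hm', ?_, ?_⟩
  · refine List.perm_middle.trans (List.Perm.trans (List.Perm.cons x ?_) List.perm_middle.symm)
    rw [← List.append_assoc]
    exact hperm.append_right R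
  · intro y hy
    rcases List.mem_append.1 hy with h | h
    · exact hm'' y h
    · exact hR y h
  · have e1 : A ++ x :: R = (A ++ [x]) ++ R := by simp
    have e2 : A' ++ x :: (A'' ++ R) = ((A' ++ [x]) ++ A'') ++ R := by simp
    have l1 : (A ++ [x]).length = A.length + 1 := by simp
    have l2 : ((A' ++ [x]) ++ A'').length = A.length + 1 := by
      simp only [List.length_append, List.length_singleton]
      omega
    have l3 : (A' ++ [x]).length = A'.length + 1 := by simp
    rw [e1, e2, cz_append R (A ++ [x]), cz_append R ((A' ++ [x]) ++ A''), l1, l2,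
      cz_append A'' (A' ++ [x]), l3]
    have s1 : cz (A' ++ [x]) ts ≤ cz (A ++ [x]) ts := by
      refine hSub _ _ ts ?_ ?_ hts
      · exact List.Sublist.append List.filter_sublist (List.Sublist.refl _)
      · rw [l1, hlen']; omega
    have s2 : cz A'' (ts.drop (A'.length + 1)) = 0 := by
      refine cz_zero D _ _ hm'' fun k hk => ?_
      have e : (ts.drop (A'.length + 1)).getD k 0 = ts.getD (A'.length + 1 + k) 0 := by
        simp [List.getD_eq_getElem?_getD, List.getElem?_drop]
      rw [e]
      refine le_trans (getD_le hts (by omega) (by omega)) hD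
    omega

end Pool.Agent.W351.WT
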